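import Mathlib

set_option autoImplicit false
set_option linter.unusedSectionVars false

namespace Pool.Agent.Results.MP_0f9f23_al.NotRetract

universe u

open MvPolynomial

/-- The stable image `⋂_{k ≥ 1} φ^k(P_n)`. -/
noncomputable def stableImage {K : Type u} [Field K] {n : ℕ}
    (φ : MvPolynomial (Fin n) K →ₐ[K] MvPolynomial (Fin n) K) :
    Subalgebra K (MvPolynomial (Fin n) K) :=
  ⨅ k : ℕ, (φ ^ (k + 1)).range

/-- `R` is a retract of `P_n`. -/
def IsRetract {K : Type u} [Field K] {n : ℕ} (R : Subalgebra K (MvPolynomial (Fin n) K)) : Prop :=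
  ∃ π : MvPolynomial (Fin n) K →ₐ[K] R, ∀ r : R, π (r : MvPolynomial (Fin n) K) = r

section Construction

variable {K : Type u} [Field K] {n : ℕ} (a b c : Fin n)

/-- `φ(x) = x`, `φ(y) = y + zx`, `φ(z) = z + zy + z²x/2`, other variables fixed. -/
noncomputable def φ : MvPolynomial (Fin n) K →ₐ[K] MvPolynomial (Fin n) K :=
  aeval (fun i => if i = b then X b + X c * X a
    else if i = c then X c + X c * X b + C (1 / 2) * X c ^ 2 * X a else X i)

/-- `Ψ(x) = x`, `Ψ(y) = xt`, `Ψ(z) = xt²/2 - z`. -/
noncomputable def Ψ : MvPolynomial (Fin n) K →ₐ[K] Polynomial (MvPolynomial (Fin n) K) :=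
  aeval (fun i => if i = b then Polynomial.C (X a) * Polynomial.X
    else if i = c then Polynomial.C (C (1 / 2) * X a) * Polynomial.X ^ 2 - Polynomial.C (X c)
    else Polynomial.C (X i))

/-- `τ = t + xt²/2 - z` -/
noncomputable def τ : Polynomial (MvPolynomial (Fin n) K) :=
  Polynomial.X + (Polynomial.C (C (1 / 2) * X a) * Polynomial.X ^ 2 - Polynomial.C (X c))

/-- the derivation `x ∂_y + y ∂_z` -/
noncomputable def D (q : MvPolynomial (Fin n) K) : MvPolynomial (Fin n) K :=
  X a * pderiv b q + X b * pderiv c q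

variable {a b c}

lemma Ψ_C (r : K) : Ψ a b c (C r : MvPolynomial (Fin n) K) = Polynomial.C (C r) := by
  have := (Ψ a b c).commutes r
  rw [MvPolynomial.algebraMap_eq] at this
  rw [this]
  rfl

lemma Ψ_a (hab : a ≠ b) (hac : a ≠ c) : Ψ a b c (X a : MvPolynomial (Fin n) K) =
    Polynomial.C (X a) := by
  simp [Ψ, hab, hac]

lemma Ψ_b : Ψ a b c (X b : MvPolynomial (Fin n) K) = Polynomial.C (X a) * Polynomial.X := by
  simp [Ψ]

lemma Ψ_c (hbc : b ≠ c) : Ψ a b c (X c : MvPolynomial (Fin n) K) =
    Polynomial.C (C (1 / 2) * X a) * Polynomial.X ^ 2 - Polynomial.C (X c) := by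
  simp [Ψ, hbc.symm]

lemma Ψ_of_ne {i : Fin n} (h1 : i ≠ b) (h2 : i ≠ c) : Ψ a b c (X i : MvPolynomial (Fin n) K) =
    Polynomial.C (X i) := by
  simp [Ψ, h1, h2]

variable [CharZero K]

lemma two_half' : (C (1 / 2) * 2 : MvPolynomial (Fin n) K) = 1 := by
  have h : (2 : MvPolynomial (Fin n) K) = C 2 := (map_ofNat C 2).symm
  rw [h, ← map_mul, one_div, inv_mul_cancel₀ two_ne_zero, map_one]

lemma two_half : (Polynomial.C (C (1 / 2)) * 2 : Polynomial (MvPolynomial (Fin n) K)) = 1 := by
  have h : (2 : Polynomial (MvPolynomial (Fin n) K)) = Polynomial.C 2 :=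
    (map_ofNat Polynomial.C 2).symm
  rw [h, ← map_mul, two_half', map_one]

/-- `∂_t Ψ(q) = Ψ(D q)` -/
lemma derivative_Ψ (hab : a ≠ b) (hac : a ≠ c) (hbc : b ≠ c) (q : MvPolynomial (Fin n) K) :
    Polynomial.derivative (Ψ a b c q) = Ψ a b c (D a b c q) := by
  unfold D
  induction q using MvPolynomial.induction_on with
  | C r =>
    rw [pderiv_C, pderiv_C, Ψ_C, Polynomial.derivative_C, mul_zero, mul_zero, add_zero, map_zero]
  | add p q hp hq =>
    rw [map_add, Polynomial.derivative_add, hp, hq, ← map_add]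
    congr 1
    rw [map_add, map_add]
    ring
  | mul_X p i hp =>
    rw [map_mul, Polynomial.derivative_mul, hp, pderiv_mul, pderiv_mul]
    by_cases h1 : i = b
    · subst h1
      rw [pderiv_X_self, pderiv_X_of_ne hbc]
      simp only [map_add, map_mul, Ψ_a hab hac, Ψ_b, map_one, map_zero,
        Polynomial.derivative_C, Polynomial.derivative_X, Polynomial.derivative_mul]
      ring
    · by_cases h2 : i = c
      · subst h2
        rw [pderiv_X_self, pderiv_X_of_ne (Ne.symm hbc)]
        simp only [map_add, map_mul, map_sub, Ψ_a hab hac, Ψ_b, Ψ_c hbc, map_one, map_zero,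
          Polynomial.derivative_C, Polynomial.derivative_mul,
          Polynomial.derivative_X_pow, Nat.cast_ofNat, map_ofNat]
        have h3 := two_half (K := K) (n := n)
        linear_combination (Ψ a b i p * Polynomial.C (X a) * Polynomial.X) * h3
      · rw [pderiv_X_of_ne h1, pderiv_X_of_ne h2]
        simp only [map_add, map_mul, Ψ_a hab hac, Ψ_b, Ψ_of_ne h1 h2, map_zero,
          Polynomial.derivative_C]
        ring

lemma alg_id {R : Type*} [CommRing R] (h u w t : R) (hh : h * 2 = 1) :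
    (h * u * t ^ 2 - w) + (h * u * t ^ 2 - w) * (u * t) + h * (h * u * t ^ 2 - w) ^ 2 * u =
      h * u * (t + (h * u * t ^ 2 - w)) ^ 2 - w := by
  linear_combination (-(u * t * (h * u * t ^ 2 - w))) * hh

lemma Ψ_φ (hab : a ≠ b) (hac : a ≠ c) (hbc : b ≠ c) (q : MvPolynomial (Fin n) K) :
    Ψ a b c (φ a b c q) = (Ψ a b c q).comp (τ a c) := by
  have h3 := two_half (K := K) (n := n)
  induction q using MvPolynomial.induction_on with
  | C r =>
    simp [Ψ, φ, MvPolynomial.algebraMap_eq]
  | add p q hp hq =>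
    rw [map_add, map_add, hp, hq, map_add, Polynomial.add_comp]
  | mul_X p i hp =>
    suffices hs : Ψ a b c (φ a b c (X i)) = (Ψ a b c (X i)).comp (τ a c) by
      rw [map_mul, map_mul, hp, map_mul, Polynomial.mul_comp, hs]
    by_cases h1 : i = b
    · subst h1
      have h2 : φ a i c (X i : MvPolynomial (Fin n) K) = X i + X c * X a := by
        simp [φ]
      rw [h2, map_add, map_mul, Ψ_b, Ψ_c hbc, Ψ_a hab hac, Polynomial.mul_comp,
        Polynomial.C_comp, Polynomial.X_comp]
      unfold τ
      rw [mul_add, mul_comm (_ - _) (Polynomial.C (X a))]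
    · by_cases h2 : i = c
      · subst h2
        have h2 : φ a b i (X i : MvPolynomial (Fin n) K) =
            X i + X i * X b + C (1 / 2) * X i ^ 2 * X a := by
          simp [φ, h1]
        rw [h2, map_add, map_add, map_mul, map_mul, map_mul, map_pow, Ψ_C, Ψ_b, Ψ_c hbc,
          Ψ_a hab hac, Polynomial.sub_comp, Polynomial.mul_comp, Polynomial.pow_comp,
          Polynomial.C_comp, Polynomial.X_comp, Polynomial.C_comp]
        unfold τ
        rw [Polynomial.C_mul]
        exact alg_id _ _ _ _ h3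
      · have h2' : φ a b c (X i : MvPolynomial (Fin n) K) = X i := by
          simp [φ, h1, h2]
        rw [h2', Ψ_of_ne h1 h2, Polynomial.C_comp]

lemma natDegree_τ : (τ a c : Polynomial (MvPolynomial (Fin n) K)).natDegree = 2 := by
  unfold τ
  have h : (C (1 / 2) * X a : MvPolynomial (Fin n) K) ≠ 0 := by
    apply mul_ne_zero
    · rw [Ne, MvPolynomial.C_eq_zero]
      norm_num
    · exact MvPolynomial.X_ne_zero a
  compute_degree!

lemma natDegree_Ψ_pow (hab : a ≠ b) (hac : a ≠ c) (hbc : b ≠ c) (k : ℕ)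
    (q : MvPolynomial (Fin n) K) :
    (Ψ a b c ((φ a b c ^ k) q)).natDegree = (Ψ a b c q).natDegree * 2 ^ k := by
  induction k generalizing q with
  | zero => simp
  | succ k ih =>
    have h : (φ a b c ^ (k + 1)) q = (φ a b c ^ k) (φ a b c q) := by
      rw [pow_succ]
      rfl
    rw [h, ih, Ψ_φ hab hac hbc, Polynomial.natDegree_comp, natDegree_τ]
    ring

lemma fld {F : Type*} [Field F] (h x y z : F) (hx : x ≠ 0) (h2 : h * 2 = 1) :
    h * x * (y / x) ^ 2 - (y ^ 2 / (2 * x) - z) = z := by
  have h4 : (2 : F) ≠ 0 := fun h5 => by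
    rw [h5, mul_zero] at h2
    exact zero_ne_one h2
  have h5 : h = 1 / 2 := by
    rw [eq_div_iff h4]
    exact h2
  rw [h5]
  field_simp
  ring

/-- `Ψ` is injective -/
lemma Ψ_injective (hab : a ≠ b) (hac : a ≠ c) (hbc : b ≠ c) :
    Function.Injective (Ψ a b c : MvPolynomial (Fin n) K →ₐ[K] _) := by
  let F := FractionRing (MvPolynomial (Fin n) K)
  let ι : MvPolynomial (Fin n) K →ₐ[K] F :=
    IsScalarTower.toAlgHom K (MvPolynomial (Fin n) K) F
  have hι : Function.Injective ι := IsFractionRing.injective (MvPolynomial (Fin n) K) F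
  have hx : ι (X a) ≠ 0 := by
    rw [Ne, map_eq_zero_iff ι hι]
    exact MvPolynomial.X_ne_zero a
  let lam0 : MvPolynomial (Fin n) K →ₐ[K] F :=
    aeval (fun i => if i = c then ι (X b) ^ 2 / (2 * ι (X a)) - ι (X c) else ι (X i))
  let lam : Polynomial (MvPolynomial (Fin n) K) →+* F :=
    Polynomial.eval₂RingHom lam0.toRingHom (ι (X b) / ι (X a))
  have lC : ∀ p, lam (Polynomial.C p) = lam0 p := fun p => by simp [lam]
  have lX : lam Polynomial.X = ι (X b) / ι (X a) := by simp [lam]
  have l0 : ∀ i, i ≠ c → lam0 (X i) = ι (X i) := fun i hi => by simp [lam0, hi]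
  have l0c : lam0 (X c) = ι (X b) ^ 2 / (2 * ι (X a)) - ι (X c) := by simp [lam0]
  have l0C : ∀ r, lam0 (C r) = ι (C r) := fun r => by
    rw [← MvPolynomial.algebraMap_eq, lam0.commutes, ι.commutes]
  have h2 : ι (C (1 / 2)) * 2 = 1 := by
    have h := congrArg ι (two_half' (K := K) (n := n))
    rwa [map_mul, map_ofNat, map_one] at h
  have key : ∀ q, lam (Ψ a b c q) = ι q := by
    intro q
    induction q using MvPolynomial.induction_on with
    | C r => rw [Ψ_C, lC, l0C]
    | add p q hp hq => rw [map_add, map_add, hp, hq, map_add]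
    | mul_X p i hp =>
      rw [map_mul, map_mul, hp, map_mul]
      congr 1
      by_cases h1 : i = b
      · subst h1
        rw [Ψ_b, map_mul, lC, lX, l0 _ hac, mul_div_cancel₀ _ hx]
      · by_cases h3 : i = c
        · subst h3
          rw [Ψ_c hbc, map_sub, map_mul, map_pow, lC, lC, lX, l0c, map_mul, l0 _ hac, l0C]
          exact fld _ _ _ _ hx h2
        · rw [Ψ_of_ne h1 h3, lC, l0 _ h3]
  intro p q hpq
  apply hι
  rw [← key, ← key, hpq]

lemma D_eq_zero (hab : a ≠ b) (hac : a ≠ c) (hbc : b ≠ c) (r : MvPolynomial (Fin n) K)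
    (hr : r ∈ stableImage (φ a b c)) : D a b c r = 0 := by
  have hdeg : (Ψ a b c r).natDegree = 0 := by
    by_contra hne
    set d := (Ψ a b c r).natDegree with hd
    have h1 : r ∈ (φ a b c ^ (d + 1)).range := by
      have := (Algebra.mem_iInf.mp hr) d
      exact this
    obtain ⟨q, hq⟩ := h1
    have h2 := natDegree_Ψ_pow hab hac hbc (d + 1) q
    have h3 : (Ψ a b c ((φ a b c ^ (d + 1)) q)).natDegree = d := by
      rw [hd]
      congr 2
    rw [h3] at h2
    have h4 : d < 2 ^ (d + 1) := lt_trans (Nat.lt_succ_self d) Nat.lt_two_pow_self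
    rcases Nat.eq_zero_or_pos (Ψ a b c q).natDegree with h5 | h5
    · rw [h5, zero_mul] at h2
      exact hne h2
    · have h6 : 2 ^ (d + 1) ≤ (Ψ a b c q).natDegree * 2 ^ (d + 1) :=
        Nat.le_mul_of_pos_left _ h5
      omega
  have h1 : Polynomial.derivative (Ψ a b c r) = 0 := by
    rw [Polynomial.eq_C_of_natDegree_eq_zero hdeg, Polynomial.derivative_C]
  rw [derivative_Ψ hab hac hbc] at h1
  exact (map_eq_zero_iff _ (Ψ_injective hab hac hbc)).mp h1

end Construction

/-- **For every field `K` of characteristic `0` and every `n ≥ 3` there is an endomorphism of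
`K[x_1, …, x_n]` whose stable image is not a retract.** -/
theorem result (K : Type u) [Field K] [CharZero K] (n : ℕ) (hn : 3 ≤ n) :
    ∃ φ : MvPolynomial (Fin n) K →ₐ[K] MvPolynomial (Fin n) K, ¬ IsRetract (stableImage φ) := by
  obtain ⟨a, b, c, hab, hac, hbc⟩ : ∃ a b c : Fin n, a ≠ b ∧ a ≠ c ∧ b ≠ c :=
    ⟨⟨0, by omega⟩, ⟨1, by omega⟩, ⟨2, by omega⟩, by simp, by simp, by simp⟩
  refine ⟨φ a b c, ?_⟩
  rintro ⟨π, hπ⟩
  -- elements fixed by `φ` are in the stable image
  have hfix : ∀ r : MvPolynomial (Fin n) K, φ a b c r = r → r ∈ stableImage (φ a b c) := by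
    intro r hr
    rw [stableImage, Algebra.mem_iInf]
    intro k
    refine ⟨r, ?_⟩
    have : ∀ m : ℕ, (φ a b c ^ m) r = r := by
      intro m
      induction m with
      | zero => simp
      | succ m ih =>
        have h : (φ a b c ^ (m + 1)) r = (φ a b c ^ m) (φ a b c r) := by
          rw [pow_succ]
          rfl
        rw [h, hr, ih]
    exact this (k + 1)
  have fa : φ a b c (X a : MvPolynomial (Fin n) K) = X a := by simp [φ, hab, hac]
  have fb : φ a b c (X b : MvPolynomial (Fin n) K) = X b + X c * X a := by simp [φ]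
  have fc : φ a b c (X c : MvPolynomial (Fin n) K) =
      X c + X c * X b + C (1 / 2) * X c ^ 2 * X a := by simp [φ, hbc.symm]
  have half : (C (1 / 2) * 2 : MvPolynomial (Fin n) K) = 1 := two_half'
  have fs : φ a b c (X b ^ 2 - (X a * X c + X a * X c) : MvPolynomial (Fin n) K) =
      X b ^ 2 - (X a * X c + X a * X c) := by
    rw [map_sub, map_pow, map_add, map_mul, fa, fb, fc]
    linear_combination (-(X a ^ 2 * X c ^ 2)) * half
  have pa : (π (X a) : MvPolynomial (Fin n) K) = X a :=
    congrArg Subtype.val (hπ ⟨X a, hfix _ fa⟩)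
  have ps : (π (X b ^ 2 - (X a * X c + X a * X c)) : MvPolynomial (Fin n) K) =
      X b ^ 2 - (X a * X c + X a * X c) :=
    congrArg Subtype.val (hπ ⟨_, hfix _ fs⟩)
  set Y : MvPolynomial (Fin n) K := (π (X b) : MvPolynomial (Fin n) K) with hY
  set Z : MvPolynomial (Fin n) K := (π (X c) : MvPolynomial (Fin n) K) with hZ
  have e : Y ^ 2 - 2 * X a * Z = X b ^ 2 - 2 * X a * X c := by
    rw [map_sub, map_pow, map_add, map_mul] at ps
    push_cast at ps
    rw [pa] at ps
    linear_combination ps
  have hDY : D a b c Y = 0 := D_eq_zero hab hac hbc Y (π (X b)).2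
  -- constant coefficients
  have c1 : constantCoeff (pderiv b Y) = 0 := by
    have h := congrArg (fun q => constantCoeff (pderiv a q)) hDY
    simp only [D, map_add, pderiv_mul, map_zero] at h
    rw [pderiv_X_self, pderiv_X_of_ne hab.symm] at h
    simpa using h
  have c0 : constantCoeff Y = 0 := by
    have h := congrArg constantCoeff e
    simp only [map_sub, map_pow, map_mul, constantCoeff_X] at h
    simpa using h
  have c2 : constantCoeff (pderiv b Y) ^ 2 = 1 := by
    have h := congrArg (fun q => constantCoeff (pderiv b (pderiv b q))) e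
    have t2 : (2 : MvPolynomial (Fin n) K) = C 2 := (map_ofNat C 2).symm
    simp only [t2, pow_two, map_sub, map_add, pderiv_mul, pderiv_C, pderiv_X_self,
      pderiv_X_of_ne hab, pderiv_X_of_ne hbc.symm, map_mul, constantCoeff_X, constantCoeff_C,
      c0, map_zero, map_one, pderiv_one] at h
    have h2 : (2 : K) ≠ 0 := two_ne_zero
    have h3 : (2 : K) * (constantCoeff (pderiv b Y) ^ 2 - 1) = 0 := by
      linear_combination h
    rcases mul_eq_zero.mp h3 with h4 | h4
    · exact absurd h4 h2
    · exact sub_eq_zero.mp h4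
  rw [c1] at c2
  norm_num at c2

end Pool.Agent.Results.MP_0f9f23_al.NotRetract
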